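import Pool.Agent.H23.LC.Targets
import Pool.Agent.H23.LB.Targets

/-!
Module MD of the board glb_modules: the dual mean value theorem.
-/

set_option autoImplicit false

open NumberField NumberField.InfinitePlace NumberField.Units
  NumberField.Units.dirichletUnitTheorem MeasureTheory Set Filter Complex
open scoped nonZeroDivisors ENNReal

namespace Pool.Agent.H86.GLB

open Pool.Agent.H25.HK Pool.Agent.H23.LB Pool.Agent.H23.LC
open Pool.Agent.H28.RC (Rep ft idl)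

section NF

variable {K : Type} [Field K] [NumberField K]

open scoped Classical in
theorem core_fub (G : logSpace K × ℝ × (InfinitePlace K → ℝ) → ℝ≥0∞) :
    ∫⁻ p in Fd K ×ˢ (univ : Set ℝ) ×ˢ An K, G p ≤
      ∫⁻ z in Fd K, ∫⁻ τ : ℝ, ∫⁻ θ in An K, G (z, τ, θ) := by
  rw [Measure.volume_eq_prod, ← Measure.prod_restrict, Measure.volume_eq_prod ℝ,
    ← Measure.prod_restrict, Measure.restrict_univ]
  exact (lintegral_prod_le _).trans (lintegral_mono fun z => lintegral_prod_le _)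

omit [NumberField K] in
theorem core_measurable_an (v : InfinitePlace K) : Measurable (an v) := by
  unfold an
  classical
  split_ifs
  · exact Measurable.ite measurableSet_Iio measurable_const measurable_const
  · fun_prop

theorem core_countable (K : Type) [Field K] [NumberField K] : Countable K :=
  Function.Injective.countable (Module.finBasis ℚ K).equivFun.injective

theorem core_measurable_Bd (δ : ℝ) (x : K) (y : InfinitePlace K → ℝ) :
    MeasurableSet {θ : InfinitePlace K → ℝ | Bd δ x y θ} := by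
  have h0 : {θ : InfinitePlace K → ℝ | Bd δ x y θ} = ⋂ v : InfinitePlace K,
      {θ | ‖v.embedding x * ((Real.exp (y v / 2) : ℝ) : ℂ) * (starRingEnd ℂ) (an v (θ v)) - 1‖
        ≤ δ} := by
    ext θ
    simp [Bd]
  rw [h0]
  refine MeasurableSet.iInter fun v => ?_
  have h2 : Measurable fun θ : InfinitePlace K → ℝ => an v (θ v) :=
    (core_measurable_an v).comp (measurable_pi_apply v)
  have h3 : Measurable fun θ : InfinitePlace K → ℝ => (starRingEnd ℂ) (an v (θ v)) :=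
    Complex.continuous_conj.measurable.comp h2
  have h1 : Measurable fun θ : InfinitePlace K → ℝ =>
      ‖v.embedding x * ((Real.exp (y v / 2) : ℝ) : ℂ) * (starRingEnd ℂ) (an v (θ v)) - 1‖ :=
    ((measurable_const.mul h3).sub measurable_const).norm
  exact measurableSet_le h1 measurable_const

open scoped Classical in
theorem core_measurable_ND (δ Y : ℝ) (M : FI K) (τ : ℝ) (z : logSpace K) :
    Measurable fun θ : InfinitePlace K → ℝ => ND δ Y M τ z θ := by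
  unfold ND
  have : Countable K := core_countable K
  refine Measurable.tsum fun x => ?_
  exact Measurable.ite (core_measurable_Bd δ x.1 _) measurable_const measurable_const

theorem md_np : np K + nrComplexPlaces K = Module.finrank ℚ K := by
  have := NumberField.InfinitePlace.card_add_two_mul_card_eq_rank K
  unfold np
  omega

open scoped Classical in
/-- the sum over the residue classes, integrated -/
theorem md_c (hSM : U_SM) (hCI : U_CI) (hZN : U_ZN) (hPD : U_PD) (f : Ideal (𝓞 K)) (hf : f ≠ ⊥)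
    (M : FI K) (hM : M ≠ 0) (hL0 : du K ((f : FI K) * M) ≠ 0) (X : Finset K)
    (hX : Rep K f M X) (δ Y β CT : ℝ) (b : Ideal (𝓞 K) → ℂ) (hδ : 0 < δ)
    (hδn : Module.finrank ℚ K * δ ≤ 1 / 8) (hδ4 : δ ≤ 1 / 4) (hY : 0 < Y)
    (hb : ∀ J, ‖b J‖ ≤ β)
    (hTH : ∀ (τ : ℝ) (z : logSpace K), ∫⁻ θ in An K, ND δ Y (du K ((f : FI K) * M)) τ z θ ≤
      ENNReal.ofReal (CT * δ ^ nrComplexPlaces K) * NT (2 * δ) Y (du K ((f : FI K) * M)) τ z) :
    ∑ r ∈ X, ∫⁻ p in Fd K ×ˢ (univ : Set ℝ) ×ˢ An K,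
        ENNReal.ofReal (‖Sd δ Y b (du K ((f : FI K) * M)) r p.2.1 p.1 p.2.2‖ ^ 2) ≤
      ENNReal.ofReal (Nf K f * β ^ 2 * (CT * δ ^ nrComplexPlaces K)) *
        ∫⁻ z in Fd K, ∫⁻ τ : ℝ, NT (2 * δ) Y (du K ((f : FI K) * M)) τ z *
          NB (2 * δ) ((f : FI K) * du K ((f : FI K) * M))
            (yM K (du K ((f : FI K) * M)) τ z) := by
  have hNf : 0 ≤ Nf K f * β ^ 2 := mul_nonneg (Nat.cast_nonneg _) (sq_nonneg _)
  have hfL : (f : FI K) * du K ((f : FI K) * M) ≠ 0 :=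
    mul_ne_zero (by simpa using hf) hL0
  generalize hLL : du K ((f : FI K) * M) = L at *
  have h1 : ∀ r, Measurable fun p : logSpace K × ℝ × (InfinitePlace K → ℝ) =>
      ENNReal.ofReal (‖Sd δ Y b L r p.2.1 p.1 p.2.2‖ ^ 2) := fun r =>
    (((hSM K f L r δ Y b hf hL0 hδ hδn hY).2.1.norm).pow_const 2).ennreal_ofReal
  rw [← lintegral_finsetSum _ fun r _ => h1 r]
  have h2 : ∀ p : logSpace K × ℝ × (InfinitePlace K → ℝ),
      ∑ r ∈ X, ENNReal.ofReal (‖Sd δ Y b L r p.2.1 p.1 p.2.2‖ ^ 2) ≤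
        ENNReal.ofReal (Nf K f * β ^ 2) * (ND δ Y L p.2.1 (-p.1) p.2.2 *
          NB (2 * δ) ((f : FI K) * L) (yM K L p.2.1 (-p.1))) := by
    intro p
    have := hPD K f M X δ Y β b p.2.1 p.1 p.2.2 hf hM hX hδ hδ4 hY hb
    rw [hLL] at this
    rwa [mul_assoc] at this
  refine (lintegral_mono h2).trans ((core_fub _).trans ?_)
  -- the inner integral
  have h3 : ∀ (z : logSpace K) (τ : ℝ), ∫⁻ θ in An K, ENNReal.ofReal (Nf K f * β ^ 2) *
      (ND δ Y L τ (-z) θ * NB (2 * δ) ((f : FI K) * L) (yM K L τ (-z))) ≤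
      ENNReal.ofReal (Nf K f * β ^ 2 * (CT * δ ^ nrComplexPlaces K)) *
        (NT (2 * δ) Y L τ (-z) * NB (2 * δ) ((f : FI K) * L) (yM K L τ (-z))) := by
    intro z τ
    rw [lintegral_const_mul' _ _ ENNReal.ofReal_ne_top,
      lintegral_mul_const _ (core_measurable_ND δ Y L τ (-z)), ENNReal.ofReal_mul hNf, mul_assoc]
    refine mul_le_mul' le_rfl ?_
    rw [← mul_assoc]
    exact mul_le_mul' (hTH τ (-z)) le_rfl
  refine (lintegral_mono fun z => lintegral_mono fun τ => h3 z τ).trans ?_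
  have h4 : ∀ z : logSpace K, ∫⁻ τ : ℝ, ENNReal.ofReal
      (Nf K f * β ^ 2 * (CT * δ ^ nrComplexPlaces K)) *
        (NT (2 * δ) Y L τ (-z) * NB (2 * δ) ((f : FI K) * L) (yM K L τ (-z))) =
      ENNReal.ofReal (Nf K f * β ^ 2 * (CT * δ ^ nrComplexPlaces K)) *
        ∫⁻ τ : ℝ, NT (2 * δ) Y L τ (-z) * NB (2 * δ) ((f : FI K) * L) (yM K L τ (-z)) :=
    fun z => lintegral_const_mul' _ _ ENNReal.ofReal_ne_top
  simp only [h4]
  rw [lintegral_const_mul' _ _ ENNReal.ofReal_ne_top]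
  obtain ⟨hm, -, -, hinv⟩ := hCI K ((f : FI K) * L) L (2 * δ) Y hfL hL0 (by positivity) hY
  have h5 := hZN K (fun z => ∫⁻ τ : ℝ, NT (2 * δ) Y L τ z *
    NB (2 * δ) ((f : FI K) * L) (yM K L τ z)) (Measurable.lintegral_prod_right' hm) (by
      intro z l hl
      refine lintegral_congr fun τ => ?_
      rw [(hinv τ z l hl).1, (hinv τ z l hl).2])
  exact (mul_le_mul' le_rfl h5.le)

/-- the real inequality at the end -/
theorem md_real (n np r2 : ℕ) (hn : 0 < n) (hnp : np + r2 = n)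
    (T δ c0 w cw h R Φ Nf D κ CT CN BN β Y : ℝ) (hT : 1 ≤ T) (hδ : δ = 1 / (64 * n * T))
    (hc0 : 0 < c0) (hw : 1 ≤ w) (hcw0 : 0 ≤ cw) (hcw : cw ≤ w) (hh : 0 ≤ h) (hR : 0 ≤ R)
    (hΦ : 0 ≤ Φ) (hNf : 0 < Nf) (hD : 0 < D) (hκ : 0 < κ) (hκ1 : κ ≤ 1) (hCT : 0 ≤ CT)
    (hCN : 0 ≤ CN) (hY : 0 < Y) :
    (w ^ 2 * c0 ^ 2 * δ ^ (2 * n) * Nf)⁻¹ * ((2 * Real.pi * (2 * Real.pi) ^ np * (h * R * Φ)) *
      ((Nf * β ^ 2 * (CT * δ ^ r2)) *
        (CN * κ ^ (-BN) * (2 * δ) ^ np * cw * (D * (Nf * (2 * δ) ^ (-(n : ℝ)))) ^ κ *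
          (Y * (1 + Y / (Real.sqrt D * (Nf * (2 * δ) ^ (-(n : ℝ))))))))) ≤
      (2 * Real.pi * (2 * Real.pi) ^ n * 2 ^ n * CT * CN * (32 * n) ^ n * (64 * n) ^ n *
        (c0 ^ 2)⁻¹) * κ ^ (-BN) * (D * (Nf * T ^ n)) ^ κ * (T ^ n * (h * R * Φ)) *
        (β ^ 2 * (Y * (1 + Y / (Real.sqrt D * (Nf * T ^ n))))) := by
  have hn' : (1 : ℝ) ≤ n := by exact_mod_cast hn
  have hT0 : 0 < T := by linarith
  have hδ0 : 0 < δ := by rw [hδ]; positivity
  have hpi : 0 < Real.pi := Real.pi_pos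
  have hpi2 : 1 ≤ 2 * Real.pi := by linarith [Real.pi_gt_three]
  -- the power of `2 δ`
  have e1 : (2 * δ) ^ (-(n : ℝ)) = (32 * n) ^ n * T ^ n := by
    rw [Real.rpow_neg (by positivity), Real.rpow_natCast, hδ, ← mul_pow, ← inv_pow]
    congr 1
    field_simp
    norm_num
  have hM1 : (1 : ℝ) ≤ (32 * n) ^ n := one_le_pow₀ (by linarith)
  have e2 : (D * (Nf * ((32 * n) ^ n * T ^ n))) ^ κ ≤ (32 * n) ^ n * (D * (Nf * T ^ n)) ^ κ := by
    have : D * (Nf * ((32 * n) ^ n * T ^ n)) = (32 * (n : ℝ)) ^ n * (D * (Nf * T ^ n)) := by ring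
    rw [this, Real.mul_rpow (by positivity) (by positivity)]
    refine mul_le_mul_of_nonneg_right ?_ (by positivity)
    calc ((32 * (n : ℝ)) ^ n) ^ κ ≤ ((32 * (n : ℝ)) ^ n) ^ (1 : ℝ) :=
          Real.rpow_le_rpow_of_exponent_le hM1 hκ1
      _ = _ := Real.rpow_one _
  have e3 : Y * (1 + Y / (Real.sqrt D * (Nf * ((32 * n) ^ n * T ^ n)))) ≤
      Y * (1 + Y / (Real.sqrt D * (Nf * T ^ n))) := by
    have hs : 0 < Real.sqrt D := Real.sqrt_pos.2 hD
    have : Real.sqrt D * (Nf * T ^ n) ≤ Real.sqrt D * (Nf * ((32 * n) ^ n * T ^ n)) := by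
      have : T ^ n ≤ (32 * (n : ℝ)) ^ n * T ^ n :=
        le_mul_of_one_le_left (by positivity) hM1
      gcongr
    gcongr
  have e4 : (2 * Real.pi) ^ np ≤ (2 * Real.pi) ^ n := pow_le_pow_right₀ hpi2 (by omega)
  have e5 : (2 : ℝ) ^ np ≤ 2 ^ n := pow_le_pow_right₀ (by norm_num) (by omega)
  have e6 : δ ^ r2 * δ ^ np = δ ^ n := by rw [← pow_add, add_comm, hnp]
  have e7 : (δ ^ (2 * n))⁻¹ * δ ^ n = (64 * n) ^ n * T ^ n := by
    have : (δ ^ (2 * n))⁻¹ * δ ^ n = (δ ^ n)⁻¹ := by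
      rw [two_mul, pow_add]
      field_simp
    rw [this, ← inv_pow, hδ, ← mul_pow]
    congr 1
    field_simp
  have e8 : (w ^ 2)⁻¹ * cw ≤ 1 := by
    rw [inv_mul_le_iff₀ (by positivity)]
    nlinarith
  rw [e1]
  have hq0 : 0 ≤ κ ^ (-BN) := Real.rpow_nonneg hκ.le _
  have hs : 0 ≤ Real.sqrt D := Real.sqrt_nonneg _
  calc (w ^ 2 * c0 ^ 2 * δ ^ (2 * n) * Nf)⁻¹ *
        ((2 * Real.pi * (2 * Real.pi) ^ np * (h * R * Φ)) *
        ((Nf * β ^ 2 * (CT * δ ^ r2)) *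
          (CN * κ ^ (-BN) * (2 * δ) ^ np * cw * (D * (Nf * ((32 * n) ^ n * T ^ n))) ^ κ *
            (Y * (1 + Y / (Real.sqrt D * (Nf * ((32 * n) ^ n * T ^ n)))))))) =
        (2 * Real.pi * (2 * Real.pi) ^ np * 2 ^ np * CT * CN * ((w ^ 2)⁻¹ * cw) * (c0 ^ 2)⁻¹) *
          ((δ ^ (2 * n))⁻¹ * (δ ^ r2 * δ ^ np)) * (Nf⁻¹ * Nf) * (h * R * Φ) * β ^ 2 *
          κ ^ (-BN) * ((D * (Nf * ((32 * n) ^ n * T ^ n))) ^ κ *
            (Y * (1 + Y / (Real.sqrt D * (Nf * ((32 * n) ^ n * T ^ n)))))) := by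
        rw [mul_pow 2 δ np, mul_inv, mul_inv, mul_inv]
        ring
    _ ≤ (2 * Real.pi * (2 * Real.pi) ^ n * 2 ^ n * CT * CN * 1 * (c0 ^ 2)⁻¹) *
          ((64 * n) ^ n * T ^ n) * 1 * (h * R * Φ) * β ^ 2 *
          κ ^ (-BN) * (((32 * n) ^ n * (D * (Nf * T ^ n)) ^ κ) *
            (Y * (1 + Y / (Real.sqrt D * (Nf * T ^ n))))) := by
        rw [e6, e7, inv_mul_cancel₀ hNf.ne']
        gcongr
    _ = _ := by ring

end NF

open scoped Classical in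
/-- (MD) the dual mean value theorem. -/
theorem pf_MD (hBT : U_BT) (hUD : U_UD) (hUH : U_UH) (hSM : U_SM) (hCI : U_CI) (hZN : U_ZN)
    (hPD : U_PD) (hTH : U_TH) (hCN : U_CN) (hRR : Pool.Agent.H23.LB.T_RR) : U_MD := by
  intro n hn
  obtain ⟨c0, hc0, hUH⟩ := hUH n hn
  obtain ⟨CT, hCT, hTH⟩ := hTH n hn
  obtain ⟨CN, BN, hCN0, hBN, hCN⟩ := hCN n hn
  refine ⟨2 * Real.pi * (2 * Real.pi) ^ n * 2 ^ n * CT * CN * (32 * n) ^ n * (64 * n) ^ n *
        (c0 ^ 2)⁻¹, BN, by have := Real.pi_pos; positivity, hBN, ?_⟩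
  intro κ hκ hκ1 K _ _ hK f hf D T hT S hS Y β b hY hβ hb
  have hn' : (1 : ℝ) ≤ n := by exact_mod_cast hn
  have hT0 : 0 < T := by linarith
  obtain ⟨δ, hδ⟩ : ∃ δ : ℝ, δ = 1 / (64 * n * T) := ⟨_, rfl⟩
  have hδ0 : 0 < δ := by rw [hδ]; positivity
  have hδn : (n : ℝ) * δ ≤ 1 / 64 := by
    rw [hδ, mul_one_div, div_le_div_iff₀ (by positivity) (by norm_num)]
    nlinarith
  have hδ64 : δ ≤ 1 / 64 := by nlinarith
  have hδn8 : (Module.finrank ℚ K : ℝ) * δ ≤ 1 / 8 := by rw [hK]; linarith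
  have hNf : 0 < Nf K f := by
    unfold Nf
    exact_mod_cast Nat.pos_of_ne_zero (by rwa [Ne, Ideal.absNorm_eq_zero_iff])
  have hw1 : (1 : ℝ) ≤ torsionOrder K := by
    exact_mod_cast Nat.one_le_iff_ne_zero.2 (NeZero.ne (torsionOrder K))
  -- the dual lattices
  have hM0 : ∀ c, D.M c ≠ 0 := D.reps.1
  have hR1 : Reps K (fun c => du K ((f : FI K) * D.M c)) :=
    (hRR K D.ι _ ((hRR K D.ι D.M D.reps).1 f hf)).2.1
  have hL0 : ∀ c, du K ((f : FI K) * D.M c) ≠ 0 := hR1.1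
  -- the functions
  obtain ⟨F, hF⟩ : ∃ F : D.ι → K → logSpace K × ℝ × (InfinitePlace K → ℝ) → ℂ,
      F = fun c r p => if r ∈ D.X c then
        Sd δ Y b (du K ((f : FI K) * D.M c)) r p.2.1 p.1 p.2.2 else 0 := ⟨_, rfl⟩
  have hFm : ∀ c r, Measurable (F c r) := by
    intro c r
    rw [hF]
    by_cases h : r ∈ D.X c
    · simp only [h, if_true]
      exact (hSM K f _ r δ Y b hf (hL0 c) hδ0 hδn8 hY).2.1
    · simp only [h, if_false]
      exact measurable_const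
  have hFb : ∃ C : ℝ, ∀ c r p, p.1 ∈ Fd K → ‖F c r p‖ ≤ C := by
    have h1 : ∀ (c : D.ι) (r : K), ∃ C : ℝ, 0 ≤ C ∧ ∀ (τ : ℝ) (z : logSpace K)
        (θ : InfinitePlace K → ℝ), z ∈ Fd K →
        ‖Sd δ Y b (du K ((f : FI K) * D.M c)) r τ z θ‖ ≤ C := by
      intro c r
      obtain ⟨C, hC⟩ := (hSM K f _ r δ Y b hf (hL0 c) hδ0 hδn8 hY).2.2.1
      exact ⟨max C 0, le_max_right _ _, fun τ z θ hz => ((hC τ z θ hz).2).trans (le_max_left _ _)⟩
    choose C hC0 hC using h1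
    refine ⟨∑ c, ∑ r ∈ D.X c, C c r, fun c r p hp => ?_⟩
    rw [hF]
    by_cases h : r ∈ D.X c
    · simp only [h, if_true]
      refine (hC c r _ _ _ hp).trans ?_
      refine (Finset.single_le_sum (f := fun r => C c r) (fun r _ => hC0 c r) h).trans ?_
      exact Finset.single_le_sum (f := fun c => ∑ r ∈ D.X c, C c r)
        (fun c _ => Finset.sum_nonneg fun r _ => hC0 c r) (Finset.mem_univ c)
    · simp only [h, if_false, norm_zero]
      exact Finset.sum_nonneg fun c _ => Finset.sum_nonneg fun r _ => hC0 c r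
  have hFs : ∀ c r p, F c r p ≠ 0 →
      p.2.1 ∈ Icc (-Real.log Y - 2) (-Real.log Y - 2 + 4) := by
    intro c r p hp
    rw [hF] at hp
    by_cases h : r ∈ D.X c
    · simp only [h, if_true] at hp
      have := (((hSM K f _ r δ Y b hf (hL0 c) hδ0 hδn8 hY).2.2.2) _ _ _).2 hp
      rw [abs_le] at this
      constructor <;> linarith
    · simp only [h, if_false] at hp
      exact absurd rfl hp
  have hB := hBT K f hf D S T (-Real.log Y - 2) F hT0 hFm hFb hFs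
  -- the right side of the inequality of Bessel
  have hRHS : ∑ c, ∑ r ∈ D.X c, ∫⁻ p in Fd K ×ˢ (univ : Set ℝ) ×ˢ An K,
      ENNReal.ofReal (‖F c r p‖ ^ 2) ≤
      ENNReal.ofReal (Nf K f * β ^ 2 * (CT * δ ^ nrComplexPlaces K)) * ENNReal.ofReal
        (CN * κ ^ (-BN) * (2 * δ) ^ np K * cw K *
      (|(discr K : ℝ)| * (Nf K f * (2 * δ) ^ (-(n : ℝ)))) ^ κ *
        (Y * (1 + Y / (Real.sqrt |(discr K : ℝ)| * (Nf K f * (2 * δ) ^ (-(n : ℝ))))))) := by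
    have h1 : ∀ c, ∑ r ∈ D.X c, ∫⁻ p in Fd K ×ˢ (univ : Set ℝ) ×ˢ An K,
        ENNReal.ofReal (‖F c r p‖ ^ 2) ≤
        ENNReal.ofReal (Nf K f * β ^ 2 * (CT * δ ^ nrComplexPlaces K)) *
        ∫⁻ z in Fd K, ∫⁻ τ : ℝ, NT (2 * δ) Y (du K ((f : FI K) * D.M c)) τ z *
          NB (2 * δ) ((f : FI K) * du K ((f : FI K) * D.M c))
            (yM K (du K ((f : FI K) * D.M c)) τ z) := by
      intro c
      have h2 : ∀ r ∈ D.X c, ∫⁻ p in Fd K ×ˢ (univ : Set ℝ) ×ˢ An K,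
          ENNReal.ofReal (‖F c r p‖ ^ 2) = ∫⁻ p in Fd K ×ˢ (univ : Set ℝ) ×ˢ An K,
          ENNReal.ofReal
            (‖Sd δ Y b (du K ((f : FI K) * D.M c)) r p.2.1 p.1 p.2.2‖ ^ 2) := by
        intro r hr
        simp only [hF, hr, if_true]
      rw [Finset.sum_congr rfl h2]
      exact md_c hSM hCI hZN hPD f hf (D.M c) (hM0 c) (hL0 c) (D.X c) (D.rep c) δ Y β CT b hδ0
        hδn8 (by linarith) hY hb
        (fun τ z => (hTH K hK δ Y τ _ z hδ0 (by linarith) hY (hL0 c)).2)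
    refine (Finset.sum_le_sum fun c _ => h1 c).trans ?_
    rw [← Finset.mul_sum]
    exact mul_le_mul' le_rfl (hCN κ hκ hκ1 K hK f hf D.ι _ hR1 (2 * δ) Y (by positivity)
      (by linarith) hY)
  -- the left side
  have hA0 : 0 < (torsionOrder K : ℝ) ^ 2 * c0 ^ 2 * δ ^ (2 * n) * Nf K f := by positivity
  have hLHS : ∀ χ ∈ S, ∫⁻ t in Icc (-T) T, ENNReal.ofReal (‖bs (cd D χ) b Y t‖ ^ 2) ≤
      ENNReal.ofReal ((torsionOrder K : ℝ) ^ 2 * c0 ^ 2 * δ ^ (2 * n) * Nf K f)⁻¹ *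
      ∫⁻ t in Icc (-T) T, ENNReal.ofReal (‖∑ c, ∑ r ∈ D.X c, cg χ (D.M c) r *
      ∫ p in Fd K ×ˢ (univ : Set ℝ) ×ˢ An K, ec K χ.ν p.1 * cexp (t * p.2.1 * I) *
        (ek χ.k p.2.2 * F c r p)‖ ^ 2) := by
    intro χ hχ
    have hbox := hS χ hχ
    rw [← lintegral_const_mul' _ _ ENNReal.ofReal_ne_top]
    refine setLIntegral_mono' measurableSet_Icc fun t ht => ?_
    rw [← ENNReal.ofReal_mul (inv_nonneg.2 hA0.le)]
    refine ENNReal.ofReal_le_ofReal ?_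
    have h1 : ∑ c, ∑ r ∈ D.X c, cg χ (D.M c) r *
      ∫ p in Fd K ×ˢ (univ : Set ℝ) ×ˢ An K, ec K χ.ν p.1 * cexp (t * p.2.1 * I) *
        (ek χ.k p.2.2 * F c r p) = (torsionOrder K : ℂ) * Uh K δ (-χ.k) (-χ.ν) t *
          ((Real.sqrt (Nf K f) : ℝ) : ℂ) * bs (cd D χ) b Y t := by
      rw [← hUD K f hf D χ δ Y t b hδ0 hδn8 hY]
      refine Finset.sum_congr rfl fun c _ => Finset.sum_congr rfl fun r hr => ?_
      simp only [hF, hr, if_true]
    rw [h1, norm_mul, norm_mul, norm_mul, Complex.norm_real, Complex.norm_natCast,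
      Real.norm_eq_abs, abs_of_nonneg (Real.sqrt_nonneg _), mul_pow, mul_pow, mul_pow,
      Real.sq_sqrt hNf.le, ← div_eq_inv_mul, le_div_iff₀ hA0]
    have h2 : c0 * δ ^ n ≤ ‖Uh K δ (-χ.k) (-χ.ν) t‖ := by
      refine hUH K hK (-χ.k) (-χ.ν) T t δ (fun v => ⟨?_, ?_⟩) ?_ (abs_le.2 ht) hT hδ
      · simpa using (hbox v).1
      · simpa using (hbox v).2
      · have := χ.norm_zero
        simp only [Pi.neg_apply, mul_neg, Finset.sum_neg_distrib, this, neg_zero]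
    have h3 : c0 ^ 2 * δ ^ (2 * n) ≤ ‖Uh K δ (-χ.k) (-χ.ν) t‖ ^ 2 := by
      calc c0 ^ 2 * δ ^ (2 * n) = (c0 * δ ^ n) ^ 2 := by ring
        _ ≤ _ := pow_le_pow_left₀ (by positivity) h2 2
    calc ‖bs (cd D χ) b Y t‖ ^ 2 * ((torsionOrder K : ℝ) ^ 2 * c0 ^ 2 * δ ^ (2 * n) * Nf K f) =
        (torsionOrder K : ℝ) ^ 2 * (c0 ^ 2 * δ ^ (2 * n)) * Nf K f *
          ‖bs (cd D χ) b Y t‖ ^ 2 := by ring
      _ ≤ _ := by gcongr
  refine (Finset.sum_le_sum hLHS).trans ?_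
  rw [← Finset.mul_sum]
  refine (mul_le_mul' le_rfl (hB.trans (mul_le_mul' le_rfl hRHS))).trans ?_
  have hpi := Real.pi_pos
  have hh : (0 : ℝ) ≤ classNumber K := Nat.cast_nonneg _
  have hRg : (0 : ℝ) ≤ regulator K := (regulator_pos K).le
  have hΦ : (0 : ℝ) ≤ Phi K f := Nat.cast_nonneg _
  have hcw0 : 0 ≤ cw K := by unfold cw; positivity
  have hcw : cw K ≤ torsionOrder K := by
    unfold cw
    refine mul_le_of_le_one_right (by positivity) (inv_le_one_of_one_le₀ ?_)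
    exact one_le_pow₀ (by norm_num)
  have hD : 0 < |(discr K : ℝ)| := abs_pos.2 (by exact_mod_cast discr_ne_zero K)
  rw [← ENNReal.ofReal_mul (by positivity), ← ENNReal.ofReal_mul (by positivity),
    ← ENNReal.ofReal_mul (by positivity)]
  exact ENNReal.ofReal_le_ofReal (md_real n (np K) (nrComplexPlaces K) hn (by rw [md_np, hK]) T δ
    c0 (torsionOrder K) (cw K) (classNumber K) (regulator K) (Phi K f) (Nf K f)
    |(discr K : ℝ)| κ CT CN BN β Y hT hδ hc0 hw1 hcw0 hcw hh hRg hΦ hNf hD hκ hκ1 hCT hCN0 hY)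

end Pool.Agent.H86.GLB
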